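import Pool.Agent.X191.NS.Defs

set_option autoImplicit false

open Finset Filter Topology MeasureTheory
open scoped ENNReal NNReal

namespace Pool.Agent.X191.NS

variable {q : ℕ → ℕ}

theorem floor_step (hq : ∀ n, 2 ≤ q n) (x : ℝ) (n : ℕ) :
    ⌊(P q (n + 1) : ℝ) * x⌋ = q (n + 1) * ⌊(P q n : ℝ) * x⌋ + digit q x (n + 1) := by
  have hqpos : (0 : ℤ) < (q (n + 1) : ℤ) := by have := hq (n + 1); omega
  have hqr : (0 : ℝ) < (q (n + 1) : ℝ) := by exact_mod_cast hqpos
  set w : ℤ := ⌊(P q (n + 1) : ℝ) * x⌋ with hw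
  set u : ℤ := ⌊(P q n : ℝ) * x⌋ with hu
  have hPs : (P q (n + 1) : ℝ) * x = q (n + 1) * ((P q n : ℝ) * x) := by
    rw [P_succ]; push_cast; ring
  have h1 : (q (n + 1) : ℤ) * u ≤ w := by
    rw [hw, Int.le_floor, hPs]
    push_cast
    exact mul_le_mul_of_nonneg_left (Int.floor_le _) hqr.le
  have h2 : w < (q (n + 1) : ℤ) * (u + 1) := by
    rw [hw, Int.floor_lt, hPs]
    push_cast
    exact mul_lt_mul_of_pos_left (Int.lt_floor_add_one _) hqr
  have h3 : w / (q (n + 1) : ℤ) = u := by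
    apply le_antisymm
    · rw [← Int.lt_add_one_iff, Int.ediv_lt_iff_lt_mul hqpos]
      linarith [mul_comm (q (n + 1) : ℤ) (u + 1)]
    · rw [Int.le_ediv_iff_mul_le hqpos]
      linarith [mul_comm (q (n + 1) : ℤ) u]
  have h4 := Int.mul_ediv_add_emod w (q (n + 1) : ℤ)
  have h5 : ((digit q x (n + 1) : ℕ) : ℤ) = w % (q (n + 1) : ℤ) :=
    Int.toNat_of_nonneg (Int.emod_nonneg _ hqpos.ne')
  rw [h5, ← h3]
  exact h4.symm

theorem digit_lt (hq : ∀ n, 2 ≤ q n) (x : ℝ) (n : ℕ) : digit q x n < q n := by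
  have hqpos : (0 : ℤ) < (q n : ℤ) := by have := hq n; omega
  have h1 := Int.emod_lt_of_pos ⌊(P q n : ℝ) * x⌋ hqpos
  have h2 := Int.emod_nonneg ⌊(P q n : ℝ) * x⌋ hqpos.ne'
  unfold digit
  omega

theorem tendsto_floor_div (hq : ∀ n, 2 ≤ q n) (x c : ℝ) :
    Tendsto (fun n => ((⌊(P q n : ℝ) * x⌋ : ℝ) + c) / P q n) atTop (𝓝 x) := by
  have hPpos : ∀ n, (0 : ℝ) < P q n := fun n => by exact_mod_cast P_pos hq n
  have h0 : Tendsto (fun n => (1 + |c|) * (1 / 2 : ℝ) ^ n) atTop (𝓝 0) := by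
    simpa using (tendsto_pow_atTop_nhds_zero_of_lt_one (by norm_num : (0 : ℝ) ≤ 1 / 2)
      (by norm_num)).const_mul (1 + |c|)
  rw [tendsto_iff_norm_sub_tendsto_zero]
  refine squeeze_zero (fun n => norm_nonneg _) (fun n => ?_) h0
  have h1 : ((⌊(P q n : ℝ) * x⌋ : ℝ) + c) / P q n - x = (c - Int.fract ((P q n : ℝ) * x)) / P q n := by
    have := (hPpos n).ne'
    have h2 := Int.floor_add_fract ((P q n : ℝ) * x)
    field_simp
    linarith
  rw [h1, Real.norm_eq_abs, abs_div, abs_of_pos (hPpos n)]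
  have h3 : |c - Int.fract ((P q n : ℝ) * x)| ≤ 1 + |c| := by
    have h4 := Int.fract_nonneg ((P q n : ℝ) * x)
    have h5 := Int.fract_lt_one ((P q n : ℝ) * x)
    calc |c - Int.fract ((P q n : ℝ) * x)| ≤ |c| + |Int.fract ((P q n : ℝ) * x)| := abs_sub _ _
      _ ≤ |c| + 1 := by rw [abs_of_nonneg h4]; linarith
      _ = _ := by ring
  rw [one_div_pow, ← div_eq_mul_one_div]
  have h6 : (2 : ℝ) ^ n ≤ P q n := by exact_mod_cast two_pow_le_P hq n
  exact div_le_div₀ (by positivity) h3 (by positivity) h6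

/-- the digits are those of the Cantor series expansion -/
theorem expansion (hq : ∀ n, 2 ≤ q n) (x : ℝ) :
    HasSum (fun n => (digit q x (n + 1) : ℝ) / P q (n + 1)) (x - ⌊x⌋) := by
  have hPpos : ∀ n, (0 : ℝ) < P q n := fun n => by exact_mod_cast P_pos hq n
  rw [hasSum_iff_tendsto_nat_of_nonneg (fun n => by positivity)]
  have hsum : ∀ n, ∑ i ∈ range n, (digit q x (i + 1) : ℝ) / P q (i + 1) =
      ((⌊(P q n : ℝ) * x⌋ : ℝ) + 0) / P q n - ⌊x⌋ := by
    intro n
    induction n with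
    | zero => simp [P_zero]
    | succ n ih =>
      rw [sum_range_succ, ih]
      have h1 : (⌊(P q (n + 1) : ℝ) * x⌋ : ℝ) = q (n + 1) * ⌊(P q n : ℝ) * x⌋ + digit q x (n + 1) := by
        exact_mod_cast floor_step hq x n
      rw [h1]
      have h2 : (P q (n + 1) : ℝ) = P q n * q (n + 1) := by exact_mod_cast P_succ q n
      have h3 := (hPpos n).ne'
      have h4 : (q (n + 1) : ℝ) ≠ 0 := by
        have := hq (n + 1)
        exact_mod_cast (by omega : q (n + 1) ≠ 0)
      rw [h2]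
      field_simp
      ring
  have h := (tendsto_floor_div hq x 0).sub_const (⌊x⌋ : ℝ)
  exact h.congr fun n => (hsum n).symm

theorem frequently_digit (hq : ∀ n, 2 ≤ q n) (x : ℝ) :
    ∃ᶠ n in atTop, digit q x n ≠ q n - 1 := by
  have hPpos : ∀ n, (0 : ℝ) < P q n := fun n => by exact_mod_cast P_pos hq n
  intro hcon
  obtain ⟨N, hN⟩ := eventually_atTop.mp hcon
  have hconst : ∀ n, N ≤ n → ((⌊(P q n : ℝ) * x⌋ : ℝ) + 1) / P q n = ((⌊(P q N : ℝ) * x⌋ : ℝ) + 1) / P q N := by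
    intro n hn
    induction n, hn using Nat.le_induction with
    | base => rfl
    | succ n hn ih =>
      rw [← ih]
      have h0 : digit q x (n + 1) = q (n + 1) - 1 := by
        have := hN (n + 1) (by omega)
        simpa using this
      have h1 : (⌊(P q (n + 1) : ℝ) * x⌋ : ℝ) = q (n + 1) * ⌊(P q n : ℝ) * x⌋ + digit q x (n + 1) := by
        exact_mod_cast floor_step hq x n
      have h5 : (digit q x (n + 1) : ℝ) = q (n + 1) - 1 := by
        rw [h0, Nat.cast_sub (by have := hq (n + 1); omega)]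
        simp
      rw [h1, h5]
      have h2 : (P q (n + 1) : ℝ) = P q n * q (n + 1) := by exact_mod_cast P_succ q n
      have h3 := (hPpos n).ne'
      have h4 : (q (n + 1) : ℝ) ≠ 0 := by
        have := hq (n + 1)
        exact_mod_cast (by omega : q (n + 1) ≠ 0)
      rw [h2]
      field_simp
      ring
  have hlim : Tendsto (fun n => ((⌊(P q n : ℝ) * x⌋ : ℝ) + 1) / P q n) atTop
      (𝓝 (((⌊(P q N : ℝ) * x⌋ : ℝ) + 1) / P q N)) := by
    refine tendsto_const_nhds.congr' ?_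
    filter_upwards [eventually_ge_atTop N] with n hn
    exact (hconst n hn).symm
  have heq := tendsto_nhds_unique hlim (tendsto_floor_div hq x 1)
  rw [div_eq_iff (hPpos N).ne'] at heq
  have h1 := Int.lt_floor_add_one ((P q N : ℝ) * x)
  rw [heq, mul_comm] at h1
  exact lt_irrefl _ h1

end Pool.Agent.X191.NS
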