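import Pool.Agent.X191.NS.Defs
import Pool.Agent.X4.JB.Upper

set_option autoImplicit false

open Finset Filter Topology MeasureTheory
open scoped ENNReal NNReal

namespace Pool.Agent.X191.NS

theorem dim_zero {q : ℕ → ℕ} (hq : ∀ n, 2 ≤ q n) (Γ : ℕ → Prop)
    (hΓ : ∀ n, Γ (n + 1) → (P q n) ^ (n + 1) ≤ q (n + 1)) (M : ℕ) :
    dimH {x : ℝ | ∃ᶠ n in atTop, Γ n ∧ digit q x n ≤ M} = 0 := by
  classical
  set A : Set ℝ := {x : ℝ | ∃ᶠ n in atTop, Γ n ∧ digit q x n ≤ M} with hA
  have key : ∀ (z : ℤ) (s : ℝ≥0), 0 < s → dimH (A ∩ Set.Ico (z : ℝ) (z + 1)) ≤ s := by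
    intro z s hs
    have hs' : (0 : ℝ) < s := by exact_mod_cast hs
    obtain ⟨n0, hn0⟩ := exists_nat_ge ((2 : ℝ) / s)
    have hn0' : (2 : ℝ) ≤ s * n0 := by
      rw [div_le_iff₀ hs'] at hn0
      linarith
    let E : ℕ → Set ℝ := fun m => {x | x ∈ Set.Ico (z : ℝ) (z + 1) ∧ Γ (m + n0 + 1) ∧
      digit q x (m + n0 + 1) ≤ M}
    let S : ℕ → Finset ℝ := fun m => if Γ (m + n0 + 1) then
      ((range (P q (m + n0))) ×ˢ (range (M + 1))).image (fun p : ℕ × ℕ =>
        (((z : ℝ) * P q (m + n0) + p.1) * q (m + n0 + 1) + p.2) / P q (m + n0 + 1)) else ∅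
    let r : ℕ → ℝ := fun m => 1 / P q (m + n0 + 1)
    have hPpos : ∀ n, (0 : ℝ) < P q n := fun n => by exact_mod_cast P_pos hq n
    have hP2 : ∀ n, (2 : ℝ) ^ n ≤ P q n := fun n => by exact_mod_cast two_pow_le_P hq n
    have hsub : A ∩ Set.Ico (z : ℝ) (z + 1) ⊆ ⋂ n : ℕ, ⋃ m : ℕ, E (n + m) := by
      rintro x ⟨hx, hxz⟩
      rw [Set.mem_iInter]
      intro n
      obtain ⟨j, hj, hj1, hj2⟩ := (frequently_atTop.mp hx) (n + n0 + 1)
      rw [Set.mem_iUnion]
      refine ⟨j - (n + n0 + 1), ?_⟩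
      have e : n + (j - (n + n0 + 1)) + n0 + 1 = j := by omega
      refine ⟨hxz, ?_, ?_⟩
      · rw [e]; exact hj1
      · rw [e]; exact hj2
    refine (dimH_mono hsub).trans ?_
    refine X4.JB.dimH_limsup E S r s (1 / 2) ((M + 1) * 2 ^ (s : ℝ)) (fun m => by
      have := hPpos (m + n0 + 1); positivity) ?_ ?_ ?_ (by norm_num) (by norm_num) (by positivity) ?_
    · refine squeeze_zero (fun m => by have := hPpos (m + n0 + 1); positivity) (g := fun m : ℕ => (1 / 2 : ℝ) ^ m)
        (fun m => ?_) (tendsto_pow_atTop_nhds_zero_of_lt_one (by norm_num) (by norm_num))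
      have h1 : (2 : ℝ) ^ m ≤ P q (m + n0 + 1) :=
        (pow_le_pow_right₀ (by norm_num) (by omega)).trans (hP2 _)
      rw [one_div_pow]
      exact one_div_le_one_div_of_le (by positivity) h1
    · intro a b hab
      have h1 : (P q (a + n0 + 1) : ℝ) ≤ P q (b + n0 + 1) := by
        exact_mod_cast P_mono hq (by omega)
      exact one_div_le_one_div_of_le (hPpos _) h1
    · intro m x hx
      obtain ⟨hx1, hx2, hx3⟩ := hx
      obtain ⟨v, hv1, hv2⟩ := digit_loc hq hx1 (m + n0) _ rfl
      simp only [Set.mem_iUnion, Metric.mem_closedBall, Real.dist_eq, exists_prop]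
      refine ⟨_, ?_, hv2⟩
      simp only [S]
      rw [if_pos hx2]
      refine mem_image.mpr ⟨(v, digit q x (m + n0 + 1)), ?_, rfl⟩
      rw [mem_product, mem_range, mem_range]
      exact ⟨hv1, Nat.lt_succ_of_le hx3⟩
    · intro m
      by_cases hG : Γ (m + n0 + 1)
      · have hcard : ((S m).card : ℝ) ≤ P q (m + n0) * (M + 1) := by
          simp only [S]
          rw [if_pos hG]
          have := (card_image_le (s := (range (P q (m + n0))) ×ˢ (range (M + 1))) (f := (fun p : ℕ × ℕ =>
            (((z : ℝ) * P q (m + n0) + p.1) * q (m + n0 + 1) + p.2) / P q (m + n0 + 1))))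
          rw [card_product, card_range, card_range] at this
          exact_mod_cast this
        have hp1 : (1 : ℝ) ≤ P q (m + n0) := by exact_mod_cast P_pos hq (m + n0)
        have hbig : ((P q (m + n0) : ℝ)) ^ (m + n0 + 2) ≤ P q (m + n0 + 1) := by
          rw [P_succ]
          push_cast
          have h1 : ((P q (m + n0) : ℝ)) ^ (m + n0 + 1) ≤ q (m + n0 + 1) := by
            exact_mod_cast hΓ (m + n0) hG
          calc ((P q (m + n0) : ℝ)) ^ (m + n0 + 2) = P q (m + n0) * (P q (m + n0) : ℝ) ^ (m + n0 + 1) := by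
                rw [← pow_succ']
            _ ≤ _ := by gcongr
        have hpow : ((P q (m + n0) : ℝ)) ^ 2 ≤ (P q (m + n0 + 1) : ℝ) ^ (s : ℝ) := by
          calc ((P q (m + n0) : ℝ)) ^ 2 = ((P q (m + n0) : ℝ)) ^ (2 : ℝ) := by
                rw [← Real.rpow_natCast]; norm_num
            _ ≤ ((P q (m + n0) : ℝ)) ^ ((s : ℝ) * (m + n0 + 2 : ℕ)) := by
                apply Real.rpow_le_rpow_of_exponent_le hp1
                push_cast
                nlinarith [(Nat.cast_nonneg m : (0 : ℝ) ≤ m)]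
            _ = (((P q (m + n0) : ℝ)) ^ (m + n0 + 2)) ^ (s : ℝ) := by
                rw [← Real.rpow_natCast, ← Real.rpow_mul (by positivity), mul_comm]
            _ ≤ _ := Real.rpow_le_rpow (by positivity) hbig s.2
        have h2 : (2 * r m) ^ (s : ℝ) ≤ 2 ^ (s : ℝ) / (P q (m + n0) : ℝ) ^ 2 := by
          have : 2 * r m = 2 / P q (m + n0 + 1) := by simp only [r]; ring
          rw [this, Real.div_rpow (by norm_num) (hPpos _).le]
          exact div_le_div_of_nonneg_left (by positivity) (by positivity) hpow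
        calc ((S m).card : ℝ) * (2 * r m) ^ (s : ℝ) ≤
            (P q (m + n0) * (M + 1)) * (2 ^ (s : ℝ) / (P q (m + n0) : ℝ) ^ 2) := by
              apply mul_le_mul hcard h2 (by
                have : 0 ≤ r m := by simp only [r]; have := hPpos (m + n0 + 1); positivity
                positivity) (by positivity)
          _ = (M + 1) * 2 ^ (s : ℝ) * (1 / P q (m + n0)) := by
              have := (hPpos (m + n0)).ne'
              field_simp
          _ ≤ (M + 1) * 2 ^ (s : ℝ) * (1 / 2) ^ m := by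
              apply mul_le_mul_of_nonneg_left _ (by positivity)
              rw [one_div_pow]
              exact one_div_le_one_div_of_le (by positivity)
                ((pow_le_pow_right₀ (by norm_num) (by omega)).trans (hP2 _))
      · simp only [S]
        rw [if_neg hG]
        simp only [card_empty, Nat.cast_zero, zero_mul]
        positivity
  have hcov : A ⊆ ⋃ z : ℤ, A ∩ Set.Ico (z : ℝ) (z + 1) := by
    intro x hx
    rw [Set.mem_iUnion]
    exact ⟨⌊x⌋, hx, Int.floor_le x, Int.lt_floor_add_one x⟩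
  by_contra hne
  have hpos : 0 < dimH A := pos_iff_ne_zero.mpr hne
  obtain ⟨s, hs1, hs2⟩ := ENNReal.lt_iff_exists_nnreal_btwn.mp hpos
  have hs0 : 0 < s := by exact_mod_cast hs1
  have h1 : dimH A ≤ s := by
    refine (dimH_mono hcov).trans ?_
    rw [dimH_iUnion]
    exact iSup_le fun z => key z s hs0
  exact absurd h1 (not_le.mpr hs2)

end Pool.Agent.X191.NS
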