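import Pool.Agent.X191.NS.Giant
import Pool.Agent.X191.NS.DimZero

set_option autoImplicit false

open Finset Filter Topology MeasureTheory
open scoped ENNReal NNReal

namespace Pool.Agent.X191.NS

theorem W_mono (q : ℕ → ℕ) (k m r : ℕ) : Monotone (W q k m r) := by
  intro a b hab
  unfold W
  apply sum_le_sum_of_subset_of_nonneg
  · exact filter_subset_filter _ (Icc_subset_Icc_right hab)
  · intro p _ _
    positivity

theorem W_run (T k m r : ℕ) (hr : r < m) :
    ((((2 ^ T - k) / m - 2 : ℕ) : ℝ)) / (2 * (T : ℝ) + 4) ^ k ≤ W Q k m r (4 ^ T + 2 ^ T) := by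
  set L := (2 ^ T - k) / m - 2 with hL
  set a := 4 ^ T / m with ha
  have ha1 : m * a ≤ 4 ^ T := Nat.mul_div_le _ _
  have ha2 : 4 ^ T < m * a + m := by
    have := Nat.lt_mul_div_succ (4 ^ T) (show 0 < m by omega)
    rw [mul_add, mul_one] at this
    exact this
  have h4 : (2 : ℕ) ^ T ≤ 4 ^ T := Nat.pow_le_pow_left (by norm_num) T
  have hpos4 : 0 < 4 ^ T := by positivity
  have hloc : ∀ i < L, 4 ^ T ≤ r + m * (a + 1 + i) ∧ r + m * (a + 1 + i) + k ≤ 4 ^ T + 2 ^ T := by
    intro i hi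
    have e : r + m * (a + 1 + i) = m * a + m + r + m * i := by ring
    refine ⟨by omega, ?_⟩
    have h1 : L + 2 ≤ (2 ^ T - k) / m := by omega
    have h2 : m * (L + 2) ≤ 2 ^ T - k := (Nat.mul_le_mul_left m h1).trans (Nat.mul_div_le _ _)
    have h3 : m * (i + 1) ≤ m * L := Nat.mul_le_mul_left m hi
    have h5 : m * (L + 2) = m * L + 2 * m := by ring
    have h6 : m * (i + 1) = m * i + m := by ring
    omega
  have hsub : (range L).image (fun i => r + m * (a + 1 + i)) ⊆
      (Icc 1 (4 ^ T + 2 ^ T)).filter fun p => p % m = r := by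
    intro p hp
    rw [mem_image] at hp
    obtain ⟨i, hi, rfl⟩ := hp
    rw [mem_range] at hi
    obtain ⟨h1, h2⟩ := hloc i hi
    rw [mem_filter, mem_Icc]
    refine ⟨by omega, ?_⟩
    rw [Nat.add_mul_mod_self_left, Nat.mod_eq_of_lt hr]
  unfold W
  have hnn : ∀ p : ℕ, (0 : ℝ) ≤ 1 / ∏ i ∈ range k, (Q (p + i) : ℝ) := fun p => by positivity
  refine le_trans ?_ (sum_le_sum_of_subset_of_nonneg hsub fun p _ _ => hnn p)
  rw [sum_image (fun x _ y _ h => by
    have : m * (a + 1 + x) = m * (a + 1 + y) := by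
      have h' : r + m * (a + 1 + x) = r + m * (a + 1 + y) := h
      omega
    have := Nat.eq_of_mul_eq_mul_left (by omega) this
    omega)]
  have hterm : ∀ i ∈ range L, 1 / (2 * (T : ℝ) + 4) ^ k ≤
      1 / ∏ j ∈ range k, (Q (r + m * (a + 1 + i) + j) : ℝ) := by
    intro i hi
    rw [mem_range] at hi
    obtain ⟨h1, h2⟩ := hloc i hi
    have hQ : ∀ j ∈ range k, (Q (r + m * (a + 1 + i) + j) : ℝ) ≤ 2 * (T : ℝ) + 4 := by
      intro j hj
      rw [mem_range] at hj
      have h5 : small (r + m * (a + 1 + i) + j) := Or.inl (reg_of_mem (T := T) (by omega) (by omega))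
      rw [Q_small h5]
      have h6 : sm (r + m * (a + 1 + i) + j) ≤ sm (4 ^ (T + 1)) := by
        apply sm_mono
        rw [pow_succ]
        omega
      have h7 : sm (4 ^ (T + 1)) = 2 * (T + 1) + 2 := by
        unfold sm
        rw [show (4 : ℕ) = 2 ^ 2 by norm_num, ← pow_mul, Nat.log_pow (by norm_num)]
      have h8 : sm (r + m * (a + 1 + i) + j) ≤ 2 * T + 4 := by omega
      exact_mod_cast h8
    have hprod : ∏ j ∈ range k, (Q (r + m * (a + 1 + i) + j) : ℝ) ≤ (2 * (T : ℝ) + 4) ^ k := by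
      calc ∏ j ∈ range k, (Q (r + m * (a + 1 + i) + j) : ℝ) ≤ ∏ _j ∈ range k, (2 * (T : ℝ) + 4) :=
            prod_le_prod (fun j _ => by positivity) hQ
        _ = _ := by rw [prod_const, card_range]
    apply one_div_le_one_div_of_le _ hprod
    apply prod_pos
    intro j _
    have := two_le_Q (r + m * (a + 1 + i) + j)
    exact_mod_cast (by omega : 0 < Q (r + m * (a + 1 + i) + j))
  have h := sum_le_sum hterm
  rw [sum_const, card_range, nsmul_eq_mul] at h
  refine le_trans (le_of_eq ?_) h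
  ring

theorem fdti (k m r : ℕ) (hr : r < m) : Tendsto (W Q k m r) atTop atTop := by
  have hm : (0 : ℝ) < m := by exact_mod_cast (by omega : 0 < m)
  have h1 : Tendsto (fun T : ℕ => (2 : ℝ) ^ T / (T : ℝ) ^ k) atTop atTop := by
    have h2 := tendsto_pow_const_div_const_pow_of_one_lt k (by norm_num : (1 : ℝ) < 2)
    have h3 : Tendsto (fun T : ℕ => (T : ℝ) ^ k / 2 ^ T) atTop (𝓝[>] 0) := by
      rw [tendsto_nhdsWithin_iff]
      refine ⟨h2, ?_⟩
      filter_upwards [eventually_ge_atTop 1] with T hT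
      have : (0 : ℝ) < T := by exact_mod_cast hT
      exact Set.mem_Ioi.mpr (by positivity)
    refine h3.inv_tendsto_nhdsGT_zero.congr fun T => ?_
    simp
  have h2 : Tendsto (fun T : ℕ => (1 / (2 * m * 6 ^ k)) * ((2 : ℝ) ^ T / (T : ℝ) ^ k)) atTop atTop :=
    h1.const_mul_atTop (by positivity)
  have h3 : Tendsto (fun T : ℕ => W Q k m r (4 ^ T + 2 ^ T)) atTop atTop := by
    refine tendsto_atTop_mono' _ ?_ h2
    have h4 : Tendsto (fun T : ℕ => (2 : ℝ) ^ T) atTop atTop :=
      tendsto_pow_atTop_atTop_of_one_lt (by norm_num)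
    filter_upwards [eventually_ge_atTop 1, h4.eventually_ge_atTop (2 * k + 6 * m : ℝ)] with T hT hT2
    refine le_trans ?_ (W_run T k m r hr)
    have hT' : (1 : ℝ) ≤ T := by exact_mod_cast hT
    have hnum : (2 : ℝ) ^ T / (2 * m) ≤ (((2 ^ T - k) / m - 2 : ℕ) : ℝ) := by
      have e1 : (((2 ^ T - k : ℕ) : ℝ)) = 2 ^ T - k := by
        rw [Nat.cast_sub]
        · push_cast; rfl
        · have : (k : ℝ) ≤ 2 ^ T := by have := hm.le; nlinarith [(Nat.cast_nonneg k : (0 : ℝ) ≤ k)]
          exact_mod_cast this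
      have e2 : ((2 ^ T - k : ℕ) : ℝ) / m - 1 ≤ (((2 ^ T - k) / m : ℕ) : ℝ) := by
        have := Nat.lt_mul_div_succ (2 ^ T - k) (show 0 < m by omega)
        have h5 : ((2 ^ T - k : ℕ) : ℝ) < m * ((((2 ^ T - k) / m : ℕ) : ℝ) + 1) := by exact_mod_cast this
        rw [sub_le_iff_le_add, div_le_iff₀ hm]
        linarith
      have e3 : (((2 ^ T - k) / m : ℕ) : ℝ) - 2 ≤ (((2 ^ T - k) / m - 2 : ℕ) : ℝ) := by
        rw [sub_le_iff_le_add]
        exact_mod_cast (by omega : (2 ^ T - k) / m ≤ (2 ^ T - k) / m - 2 + 2)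
      have e4 : (2 : ℝ) ^ T / (2 * m) ≤ (2 ^ T - k) / m - 3 := by
        rw [div_le_iff₀ (by positivity), sub_mul]
        have : ((2 : ℝ) ^ T - k) / m * (2 * m) = 2 * (2 ^ T - k) := by field_simp
        rw [this]
        linarith
      rw [e1] at e2
      linarith
    have hden : (2 * (T : ℝ) + 4) ^ k ≤ 6 ^ k * (T : ℝ) ^ k := by
      rw [← mul_pow]
      apply pow_le_pow_left₀ (by positivity)
      linarith
    calc 1 / (2 * m * 6 ^ k) * ((2 : ℝ) ^ T / (T : ℝ) ^ k) =
          ((2 : ℝ) ^ T / (2 * m)) / (6 ^ k * (T : ℝ) ^ k) := by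
            have : (0 : ℝ) < (T : ℝ) ^ k := by positivity
            field_simp
      _ ≤ _ := div_le_div₀ (by positivity) hnum (by positivity) hden
  apply tendsto_atTop_atTop_of_monotone (W_mono Q k m r)
  intro b
  obtain ⟨T, hT⟩ := (h3.eventually_ge_atTop b).exists
  exact ⟨_, hT⟩

/-- normal numbers -/
def Nset (q : ℕ → ℕ) : Set ℝ := {x | ∀ k, 1 ≤ k → ∀ B : Fin k → ℕ,
  Tendsto (fun n => (count q B x 1 0 n : ℝ) / W q k 1 0 n) atTop (𝓝 1)}

/-- normal of order `k` along the progression `r` mod `m` -/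
def NAP (q : ℕ → ℕ) (k m r : ℕ) : Set ℝ := {x | ∀ B : Fin k → ℕ,
  Tendsto (fun n => (count q B x m r n : ℝ) / W q k m r n) atTop (𝓝 1)}

open Classical in
theorem count_split (q : ℕ → ℕ) {k : ℕ} (B : Fin k → ℕ) (x : ℝ) (n : ℕ) :
    count q B x 1 0 n = count q B x 2 0 n + count q B x 2 1 n := by
  unfold count
  rw [← card_union_of_disjoint]
  · congr 1
    ext p
    simp only [mem_filter, mem_union]
    have h1 : p % 1 = 0 := by omega
    have h2 : p % 2 = 0 ∨ p % 2 = 1 := by omega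
    tauto
  · rw [disjoint_left]
    intro p h1 h2
    rw [mem_filter] at h1 h2
    omega

theorem W_split (q : ℕ → ℕ) (k n : ℕ) : W q k 1 0 n = W q k 2 0 n + W q k 2 1 n := by
  unfold W
  rw [← sum_union]
  · congr 1
    ext p
    simp only [mem_filter, mem_union]
    have h1 : p % 1 = 0 := by omega
    have h2 : p % 2 = 0 ∨ p % 2 = 1 := by omega
    tauto
  · rw [disjoint_left]
    intro p h1 h2
    rw [mem_filter] at h1 h2
    omega

open Classical in
theorem subset_main : Nset Q \ NAP Q 2 2 1 ⊆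
    ⋃ M : ℕ, {x | ∃ᶠ n in atTop, ¬ small n ∧ digit Q x n ≤ M} := by
  rintro x ⟨hx, hx2⟩
  by_contra hcon
  rw [Set.mem_iUnion] at hcon
  push Not at hcon
  apply hx2
  intro B
  have h0 := hcon (max (B 0) (B 1))
  have h1 : ∀ᶠ n in atTop, ¬ (¬ small n ∧ digit Q x n ≤ max (B 0) (B 1)) := by
    exact not_frequently.mp h0
  obtain ⟨p0, hp0⟩ := eventually_atTop.mp h1
  have hcount : ∀ n, count Q B x 2 0 n ≤ p0 + ev n := by
    intro n
    have hsub : ((Icc 1 n).filter fun p => p % 2 = 0 ∧ Occ Q x B p) ⊆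
        Icc 1 p0 ∪ ((Icc 1 n).filter fun p => p % 2 = 0 ∧ small p ∧ small (p + 1)) := by
      intro p hp
      rw [mem_filter, mem_Icc] at hp
      obtain ⟨⟨h2, h3⟩, h4, h5⟩ := hp
      rw [mem_union]
      by_cases h6 : p ≤ p0
      · left; rw [mem_Icc]; exact ⟨h2, h6⟩
      · right
        rw [mem_filter, mem_Icc]
        refine ⟨⟨h2, h3⟩, h4, ?_, ?_⟩
        · by_contra h7
          apply hp0 p (by omega)
          refine ⟨h7, ?_⟩
          have := h5 0
          simp only [Fin.val_zero, add_zero] at this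
          rw [this]
          exact le_max_left _ _
        · by_contra h7
          apply hp0 (p + 1) (by omega)
          refine ⟨h7, ?_⟩
          have := h5 1
          simp only [Fin.val_one] at this
          rw [this]
          exact le_max_right _ _
    unfold count ev
    refine (card_le_card hsub).trans ((card_union_le _ _).trans ?_)
    rw [Nat.card_Icc]
    omega
  have hW : Tendsto (W Q 2 1 0) atTop atTop := fdti 2 1 0 (by norm_num)
  have hf : Tendsto (fun n => (count Q B x 1 0 n : ℝ) / W Q 2 1 0 n) atTop (𝓝 1) := hx 2 (by norm_num) B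
  have hg : Tendsto (fun n => (count Q B x 2 0 n : ℝ) / W Q 2 1 0 n) atTop (𝓝 0) := by
    refine squeeze_zero' ?_ ?_ (tendsto_ratio p0)
    · filter_upwards [hW.eventually_gt_atTop 0] with n hn
      positivity
    · filter_upwards [hW.eventually_gt_atTop 0] with n hn
      apply div_le_div_of_nonneg_right _ hn.le
      have := hcount n
      have h2 : (count Q B x 2 0 n : ℝ) ≤ (p0 : ℝ) + ev n := by exact_mod_cast this
      linarith
  have hh : Tendsto (fun n => W Q 2 2 0 n / W Q 2 1 0 n) atTop (𝓝 0) := by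
    refine squeeze_zero' ?_ ?_ (tendsto_ratio 2)
    · filter_upwards [hW.eventually_gt_atTop 0] with n hn
      apply div_nonneg _ hn.le
      unfold W
      positivity
    · filter_upwards [hW.eventually_gt_atTop 0] with n hn
      exact div_le_div_of_nonneg_right (W_even n) hn.le
  have hlim : Tendsto (fun n => ((count Q B x 1 0 n : ℝ) / W Q 2 1 0 n -
      (count Q B x 2 0 n : ℝ) / W Q 2 1 0 n) / (1 - W Q 2 2 0 n / W Q 2 1 0 n)) atTop (𝓝 1) := by
    have h9 := (hf.sub hg).div (tendsto_const_nhds (x := (1 : ℝ)).sub hh) (by norm_num : (1 : ℝ) - 0 ≠ 0)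
    rw [show ((1 : ℝ) - 0) / (1 - 0) = 1 by norm_num] at h9
    exact h9
  refine hlim.congr' ?_
  filter_upwards [hW.eventually_gt_atTop 0, hh.eventually_lt_const (by norm_num : (0 : ℝ) < 1)] with n hn hn2
  have e1 : (count Q B x 1 0 n : ℝ) = count Q B x 2 0 n + count Q B x 2 1 n := by
    exact_mod_cast count_split Q B x n
  have e2 := W_split Q 2 n
  have h3 : (1 : ℝ) - W Q 2 2 0 n / W Q 2 1 0 n = W Q 2 2 1 n / W Q 2 1 0 n := by
    rw [eq_div_iff hn.ne', sub_mul, div_mul_cancel₀ _ hn.ne', e2]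
    ring
  rw [h3, e1, ← sub_div, div_div_div_cancel_right₀ hn.ne']
  congr 1
  ring

theorem dim_two : dimH (Nset Q \ NAP Q 2 2 1) = 0 := by
  refine le_antisymm ?_ zero_le
  refine (dimH_mono subset_main).trans ?_
  rw [dimH_iUnion]
  refine iSup_le fun M => ?_
  rw [dim_zero two_le_Q (fun n => ¬ small n) Q_giant M]

theorem dim_main : dimH (Nset Q \ ⋃ k ≥ 2, ⋃ r < k, NAP Q k k r) = 0 := by
  refine le_antisymm ?_ zero_le
  rw [← dim_two]
  apply dimH_mono
  intro x hx
  refine ⟨hx.1, fun h => hx.2 ?_⟩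
  simp only [Set.mem_iUnion]
  exact ⟨2, le_rfl, 1, by norm_num, h⟩

end Pool.Agent.X191.NS
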