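import Mathlib

set_option autoImplicit false

open Finset Filter Topology MeasureTheory
open scoped ENNReal NNReal

namespace Pool.Agent.X191.NS

/-- `P q n = q_1 ⋯ q_n` -/
def P (q : ℕ → ℕ) (n : ℕ) : ℕ := ∏ j ∈ Icc 1 n, q j

/-- the digit `E_n`, `n ≥ 1`, of the `q`-Cantor series expansion of `x` -/
noncomputable def digit (q : ℕ → ℕ) (x : ℝ) (n : ℕ) : ℕ :=
  (⌊(P q n : ℝ) * x⌋ % (q n : ℤ)).toNat

/-- the block `B` occurs at the position `p` -/
def Occ (q : ℕ → ℕ) (x : ℝ) {k : ℕ} (B : Fin k → ℕ) (p : ℕ) : Prop :=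
  ∀ i : Fin k, digit q x (p + i) = B i

open Classical in
/-- number of the positions `p ≤ n`, `p ≡ r mod m`, at which `B` occurs -/
noncomputable def count (q : ℕ → ℕ) {k : ℕ} (B : Fin k → ℕ) (x : ℝ) (m r n : ℕ) : ℕ :=
  ((Icc 1 n).filter fun p => p % m = r ∧ Occ q x B p).card

/-- the expected number -/
noncomputable def W (q : ℕ → ℕ) (k m r n : ℕ) : ℝ :=
  ∑ p ∈ (Icc 1 n).filter (fun p => p % m = r), 1 / ∏ i ∈ range k, (q (p + i) : ℝ)

theorem P_zero (q : ℕ → ℕ) : P q 0 = 1 := by simp [P]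

theorem P_succ (q : ℕ → ℕ) (n : ℕ) : P q (n + 1) = P q n * q (n + 1) := by
  unfold P
  rw [Finset.prod_Icc_succ_top (by omega)]

theorem P_pos {q : ℕ → ℕ} (hq : ∀ n, 2 ≤ q n) (n : ℕ) : 0 < P q n :=
  Finset.prod_pos fun j _ => by have := hq j; omega

theorem two_pow_le_P {q : ℕ → ℕ} (hq : ∀ n, 2 ≤ q n) (n : ℕ) : 2 ^ n ≤ P q n := by
  induction n with
  | zero => simp [P_zero]
  | succ n ih =>
    rw [P_succ, pow_succ]
    exact Nat.mul_le_mul ih (hq _)

theorem P_mono {q : ℕ → ℕ} (hq : ∀ n, 2 ≤ q n) : Monotone (P q) := by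
  apply monotone_nat_of_le_succ
  intro n
  rw [P_succ]
  exact Nat.le_mul_of_pos_right _ (by have := hq (n + 1); omega)

/-- location of the numbers with a given digit -/
theorem digit_loc {q : ℕ → ℕ} (hq : ∀ n, 2 ≤ q n) {x : ℝ} {z : ℤ} (hx : x ∈ Set.Ico (z : ℝ) (z + 1))
    (n d : ℕ) (hd : digit q x (n + 1) = d) :
    ∃ v : ℕ, v < P q n ∧
      |x - (((z : ℝ) * P q n + v) * q (n + 1) + d) / P q (n + 1)| ≤ 1 / P q (n + 1) := by
  have hP : (0 : ℝ) < P q (n + 1) := by exact_mod_cast P_pos hq (n + 1)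
  have hqpos : (0 : ℤ) < (q (n + 1) : ℤ) := by have := hq (n + 1); omega
  set w : ℤ := ⌊(P q (n + 1) : ℝ) * x⌋ with hw
  have hmod : w % (q (n + 1) : ℤ) = d := by
    have h1 : 0 ≤ w % (q (n + 1) : ℤ) := Int.emod_nonneg _ hqpos.ne'
    have h2 : (w % (q (n + 1) : ℤ)).toNat = d := hd
    omega
  set u : ℤ := w / (q (n + 1) : ℤ) with hu
  have hwu : w = q (n + 1) * u + d := by
    have := Int.mul_ediv_add_emod w (q (n + 1) : ℤ)
    rw [hmod] at this
    exact this.symm
  have hPs : (P q (n + 1) : ℤ) = P q n * q (n + 1) := by exact_mod_cast P_succ q n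
  have hw1 : z * (P q n * q (n + 1)) ≤ w := by
    rw [← hPs, hw, Int.le_floor]
    push_cast
    nlinarith [hx.1]
  have hw2 : w < (z + 1) * (P q n * q (n + 1)) := by
    rw [← hPs, hw, Int.floor_lt]
    push_cast
    nlinarith [hx.2]
  have hu1 : z * P q n ≤ u := by
    rw [hu, Int.le_ediv_iff_mul_le hqpos]
    linarith [hw1, mul_assoc z (P q n : ℤ) (q (n + 1) : ℤ)]
  have hu2 : u < (z + 1) * P q n := by
    rw [hu, Int.ediv_lt_iff_lt_mul hqpos]
    linarith [hw2, mul_assoc (z + 1) (P q n : ℤ) (q (n + 1) : ℤ)]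
  refine ⟨(u - z * P q n).toNat, ?_, ?_⟩
  · have : u - z * P q n < P q n := by linarith
    omega
  · have hcast : (((u - z * P q n).toNat : ℕ) : ℝ) = (u : ℝ) - z * P q n := by
      have h3 : (((u - z * P q n).toNat : ℕ) : ℤ) = u - z * P q n := Int.toNat_of_nonneg (by linarith)
      have h4 := congrArg (fun t : ℤ => (t : ℝ)) h3
      push_cast at h4
      exact h4
    rw [hcast]
    have h5 : ((z : ℝ) * P q n + ((u : ℝ) - z * P q n)) * q (n + 1) + d = w := by
      rw [hwu]; push_cast; ring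
    rw [h5, abs_le]
    have h6 := Int.floor_le ((P q (n + 1) : ℝ) * x)
    have h7 := Int.lt_floor_add_one ((P q (n + 1) : ℝ) * x)
    rw [← hw] at h6 h7
    constructor
    · rw [← sub_nonneg]
      have : x - (w : ℝ) / P q (n + 1) - -(1 / (P q (n + 1) : ℝ)) =
          (P q (n + 1) * x - w + 1) / P q (n + 1) := by field_simp; ring
      rw [this]
      exact div_nonneg (by linarith) hP.le
    · rw [← sub_nonneg]
      have : 1 / (P q (n + 1) : ℝ) - (x - (w : ℝ) / P q (n + 1)) =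
          (w + 1 - P q (n + 1) * x) / P q (n + 1) := by field_simp; ring
      rw [this]
      exact div_nonneg (by linarith) hP.le

end Pool.Agent.X191.NS
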