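import Pool.Agent.X191.NS.Defs

set_option autoImplicit false

open Finset Filter Topology MeasureTheory
open scoped ENNReal NNReal

namespace Pool.Agent.X191.NS

/-- the small values -/
def sm (n : ℕ) : ℕ := Nat.log 2 n + 2

/-- `n` lies in a regular stretch -/
def reg (n : ℕ) : Prop := n < 4 ^ Nat.log 4 n + 2 ^ Nat.log 4 n

instance (n : ℕ) : Decidable (reg n) := by unfold reg; infer_instance

/-- positions with small values -/
def small (n : ℕ) : Prop := reg n ∨ n % 4 = 1 ∨ n % 4 = 2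

instance (n : ℕ) : Decidable (small n) := by unfold small; infer_instance

def qq (n p : ℕ) : ℕ := if small n then sm n else sm n + p ^ n

def PP : ℕ → ℕ
  | 0 => 1
  | n + 1 => PP n * qq (n + 1) (PP n)

/-- the basic sequence -/
def Q (n : ℕ) : ℕ := qq n (PP (n - 1))

theorem P_Q (n : ℕ) : P Q n = PP n := by
  induction n with
  | zero => simp [P_zero, PP]
  | succ n ih =>
    rw [P_succ, ih, PP]
    rfl

theorem sm_le_Q (n : ℕ) : sm n ≤ Q n := by
  unfold Q qq
  split_ifs <;> omega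

theorem two_le_Q (n : ℕ) : 2 ≤ Q n := by
  have := sm_le_Q n
  unfold sm at this
  omega

theorem Q_small {n : ℕ} (h : small n) : Q n = sm n := by
  unfold Q qq
  rw [if_pos h]

theorem Q_giant (n : ℕ) (h : ¬ small (n + 1)) : (P Q n) ^ (n + 1) ≤ Q (n + 1) := by
  rw [P_Q]
  unfold Q qq
  rw [if_neg h]
  simp

theorem sm_mono : Monotone sm := by
  intro a b hab
  unfold sm
  have := Nat.log_mono_right (b := 2) hab
  omega

theorem tendsto_log (b : ℕ) (hb : 1 < b) : Tendsto (fun n => Nat.log b n) atTop atTop := by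
  apply tendsto_atTop_atTop_of_monotone (fun a c hac => Nat.log_mono_right hac)
  intro N
  exact ⟨b ^ N, by rw [Nat.log_pow hb]⟩

theorem tendsto_Q : Tendsto Q atTop atTop := by
  apply tendsto_atTop_mono (f := fun n => Nat.log 2 n)
  · intro n
    have := sm_le_Q n
    unfold sm at this
    omega
  · exact tendsto_log 2 (by norm_num)

theorem reg_of_mem {T n : ℕ} (h1 : 4 ^ T ≤ n) (h2 : n < 4 ^ T + 2 ^ T) : reg n := by
  have h3 : (2 : ℕ) ^ T ≤ 4 ^ T := Nat.pow_le_pow_left (by norm_num) T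
  have h4 : Nat.log 4 n = T := by
    rw [Nat.log_eq_iff (Or.inr ⟨by norm_num, by have := Nat.pos_of_ne_zero (pow_ne_zero T (by norm_num : (4 : ℕ) ≠ 0)); omega⟩)]
    refine ⟨h1, ?_⟩
    rw [pow_succ]
    omega
  unfold reg
  rw [h4]
  exact h2

/-- number of the regular positions -/
theorem card_reg (n : ℕ) : ((Icc 1 n).filter reg).card ≤ 2 ^ (Nat.log 4 n + 1) := by
  have hsub : (Icc 1 n).filter reg ⊆
      (range (Nat.log 4 n + 1)).biUnion (fun t => Ico (4 ^ t) (4 ^ t + 2 ^ t)) := by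
    intro p hp
    rw [mem_filter, mem_Icc] at hp
    rw [mem_biUnion]
    refine ⟨Nat.log 4 p, ?_, ?_⟩
    · rw [mem_range]
      exact Nat.lt_succ_of_le (Nat.log_mono_right hp.1.2)
    · rw [mem_Ico]
      exact ⟨Nat.pow_log_le_self 4 (by omega), hp.2⟩
  refine (card_le_card hsub).trans (card_biUnion_le.trans ?_)
  have h1 : ∀ N : ℕ, ∑ t ∈ range N, (Ico (4 ^ t) (4 ^ t + 2 ^ t)).card ≤ 2 ^ N := by
    intro N
    induction N with
    | zero => simp
    | succ N ih =>
      rw [sum_range_succ, Nat.card_Ico, pow_succ]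
      have : 4 ^ N + 2 ^ N - 4 ^ N = 2 ^ N := by omega
      omega
  exact h1 _

/-- even positions with both values small -/
def ev (n : ℕ) : ℕ := ((Icc 1 n).filter fun p => p % 2 = 0 ∧ small p ∧ small (p + 1)).card

theorem ev_le (n : ℕ) : ev n ≤ 8 * 2 ^ Nat.log 4 n := by
  have hsub : ((Icc 1 n).filter fun p => p % 2 = 0 ∧ small p ∧ small (p + 1)) ⊆
      ((Icc 1 (n + 1)).filter reg) ∪ (((Icc 1 (n + 1)).filter reg).image fun p => p - 1) := by
    intro p hp
    rw [mem_filter, mem_Icc] at hp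
    obtain ⟨⟨h1, h2⟩, h3, h4, h5⟩ := hp
    rw [mem_union, mem_image]
    unfold small at h4 h5
    rcases h4 with h4 | h4
    · left
      rw [mem_filter, mem_Icc]
      exact ⟨by omega, h4⟩
    · right
      refine ⟨p + 1, ?_, by omega⟩
      rw [mem_filter, mem_Icc]
      refine ⟨by omega, ?_⟩
      rcases h5 with h5 | h5
      · exact h5
      · omega
  unfold ev
  refine (card_le_card hsub).trans ((card_union_le _ _).trans ?_)
  have h1 := card_reg (n + 1)
  have h2 : (((Icc 1 (n + 1)).filter reg).image fun p => p - 1).card ≤ ((Icc 1 (n + 1)).filter reg).card :=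
    card_image_le
  have h3 : Nat.log 4 (n + 1) ≤ Nat.log 4 n + 1 := by
    rcases Nat.eq_zero_or_pos n with h0 | h0
    · subst h0; simp
    · have : n + 1 ≤ n * 4 := by omega
      refine (Nat.log_mono_right this).trans ?_
      rw [Nat.log_mul_base (by norm_num) (by omega)]
  have h4 : (2 : ℕ) ^ (Nat.log 4 (n + 1) + 1) ≤ 2 ^ (Nat.log 4 n + 2) :=
    Nat.pow_le_pow_right (by norm_num) (by omega)
  have h5 : (2 : ℕ) ^ (Nat.log 4 n + 2) = 4 * 2 ^ Nat.log 4 n := by rw [pow_add]; ring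
  omega

/-- lower bound for the expected number of pairs -/
theorem W_lower (n : ℕ) (hn : 4 ≤ n) :
    (4 : ℝ) ^ Nat.log 4 n / (4 * (2 * (Nat.log 4 n : ℝ) + 2) ^ 2) ≤ W Q 2 1 0 n := by
  obtain ⟨T, hT⟩ : ∃ T, Nat.log 4 n = T + 1 := by
    have : 0 < Nat.log 4 n := Nat.log_pos (by norm_num) hn
    exact ⟨Nat.log 4 n - 1, by omega⟩
  rw [hT]
  have hn2 : 4 ^ (T + 1) ≤ n := by
    rw [← hT]; exact Nat.pow_log_le_self 4 (by omega)
  unfold W
  have hsub : (range (4 ^ T)).image (fun i => 4 * i + 1) ⊆ (Icc 1 n).filter fun p => p % 1 = 0 := by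
    intro p hp
    rw [mem_image] at hp
    obtain ⟨i, hi, rfl⟩ := hp
    rw [mem_range] at hi
    rw [mem_filter, mem_Icc]
    rw [pow_succ] at hn2
    refine ⟨by omega, by omega⟩
  have hpos : ∀ p : ℕ, (0 : ℝ) ≤ 1 / ∏ i ∈ range 2, (Q (p + i) : ℝ) := fun p => by positivity
  refine le_trans ?_ (sum_le_sum_of_subset_of_nonneg hsub fun p _ _ => hpos p)
  rw [sum_image (fun a _ b _ h => by simpa using h)]
  have hterm : ∀ i ∈ range (4 ^ T), 1 / (2 * ((T + 1 : ℕ) : ℝ) + 2) ^ 2 ≤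
      1 / ∏ j ∈ range 2, (Q (4 * i + 1 + j) : ℝ) := by
    intro i hi
    rw [mem_range] at hi
    rw [prod_range_succ, prod_range_succ, prod_range_zero, one_mul, add_zero]
    have hq1 : Q (4 * i + 1) = sm (4 * i + 1) := Q_small (Or.inr (Or.inl (by omega)))
    have hq2 : Q (4 * i + 1 + 1) = sm (4 * i + 2) := Q_small (Or.inr (Or.inr (by omega)))
    rw [hq1, hq2]
    have hb : ∀ j, j ≤ 4 ^ (T + 1) → sm j ≤ 2 * (T + 1) + 2 := by
      intro j hj
      have h1 := sm_mono hj
      have h2 : sm (4 ^ (T + 1)) = 2 * (T + 1) + 2 := by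
        unfold sm
        rw [show (4 : ℕ) = 2 ^ 2 by norm_num, ← pow_mul, Nat.log_pow (by norm_num)]
      omega
    have h4 : (4 : ℕ) ^ (T + 1) = 4 * 4 ^ T := by rw [pow_succ]; ring
    have hb1 : (sm (4 * i + 1) : ℝ) ≤ 2 * ((T + 1 : ℕ) : ℝ) + 2 := by
      exact_mod_cast hb (4 * i + 1) (by omega)
    have hb2 : (sm (4 * i + 2) : ℝ) ≤ 2 * ((T + 1 : ℕ) : ℝ) + 2 := by
      exact_mod_cast hb (4 * i + 2) (by omega)
    have hs1 : (0 : ℝ) < sm (4 * i + 1) := by unfold sm; positivity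
    have hs2 : (0 : ℝ) < sm (4 * i + 2) := by unfold sm; positivity
    apply one_div_le_one_div_of_le (by positivity)
    rw [pow_two]
    exact mul_le_mul hb1 hb2 hs2.le (by positivity)
  have h := sum_le_sum hterm
  rw [sum_const, card_range, nsmul_eq_mul] at h
  refine le_trans (le_of_eq ?_) h
  push_cast
  rw [pow_succ]
  field_simp

/-- the weight of the even positions -/
theorem W_even (n : ℕ) : W Q 2 2 0 n ≤ ev n + 2 := by
  unfold W
  have h0 : ∀ p ∈ (Icc 1 n).filter (fun p => p % 2 = 0), 1 / ∏ i ∈ range 2, (Q (p + i) : ℝ) ≤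
      (if small p ∧ small (p + 1) then (1 : ℝ) else 0) + (1 / 2) ^ (p - 1) := by
    intro p hp
    rw [mem_filter, mem_Icc] at hp
    rw [prod_range_succ, prod_range_succ, prod_range_zero, one_mul, add_zero]
    have hq1 : (1 : ℝ) ≤ Q p := by have := two_le_Q p; exact_mod_cast (by omega : 1 ≤ Q p)
    have hq2 : (1 : ℝ) ≤ Q (p + 1) := by have := two_le_Q (p + 1); exact_mod_cast (by omega : 1 ≤ Q (p + 1))
    have hle1 : 1 / ((Q p : ℝ) * Q (p + 1)) ≤ 1 := by
      rw [div_le_one (by positivity)]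
      nlinarith
    split_ifs with h
    · have : (0 : ℝ) ≤ (1 / 2) ^ (p - 1) := by positivity
      linarith
    · rw [zero_add]
      have hgiant : ∀ j, p ≤ j + 1 → j + 1 ≤ p + 1 → ¬ small (j + 1) → (2 : ℝ) ^ (p - 1) ≤ Q (j + 1) := by
        intro j hj1 hj2 hj3
        have h1 := Q_giant j hj3
        have h2 := two_pow_le_P two_le_Q j
        have h3 : (2 : ℕ) ^ (p - 1) ≤ P Q j ^ (j + 1) := by
          calc (2 : ℕ) ^ (p - 1) ≤ 2 ^ j := Nat.pow_le_pow_right (by norm_num) (by omega)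
            _ ≤ P Q j := h2
            _ ≤ P Q j ^ (j + 1) := Nat.le_self_pow (by omega) _
        exact_mod_cast h3.trans h1
      rw [one_div_pow]
      apply one_div_le_one_div_of_le (by positivity)
      by_cases hp1 : small p
      · have h5 : ¬ small (p + 1) := fun h6 => h ⟨hp1, h6⟩
        have h7 := hgiant p (by omega) le_rfl h5
        nlinarith
      · obtain ⟨j, rfl⟩ : ∃ j, p = j + 1 := ⟨p - 1, by omega⟩
        have h7 := hgiant j le_rfl (by omega) hp1
        nlinarith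
  refine (sum_le_sum h0).trans ?_
  rw [sum_add_distrib]
  apply add_le_add
  · rw [← sum_filter, sum_const, nsmul_eq_mul, mul_one, filter_filter]
    unfold ev
    exact le_rfl
  · calc ∑ p ∈ (Icc 1 n).filter (fun p => p % 2 = 0), ((1 : ℝ) / 2) ^ (p - 1) ≤
          ∑ p ∈ Icc 1 n, ((1 : ℝ) / 2) ^ (p - 1) :=
            sum_le_sum_of_subset_of_nonneg (filter_subset _ _) fun _ _ _ => by positivity
      _ = ∑ i ∈ range n, ((1 : ℝ) / 2) ^ i := by
            rw [Finset.range_eq_Ico, Finset.sum_Ico_eq_sum_range, ← Finset.Ico_succ_right_eq_Icc,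
              Finset.sum_Ico_eq_sum_range]
            simp
      _ ≤ 2 := by
            rw [geom_sum_eq (by norm_num), div_le_iff_of_neg (by norm_num)]
            have : (0 : ℝ) ≤ (1 / 2) ^ n := by positivity
            linarith

theorem tendsto_ratio (c : ℝ) : Tendsto (fun n => ((ev n : ℝ) + c) / W Q 2 1 0 n) atTop (𝓝 0) := by
  have hlog := tendsto_log 4 (by norm_num)
  have h1 : Tendsto (fun T : ℕ => (8 + |c|) * (64 * ((T : ℝ) ^ 2 / 2 ^ T))) atTop (𝓝 0) := by
    have := tendsto_pow_const_div_const_pow_of_one_lt 2 (by norm_num : (1 : ℝ) < 2)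
    simpa using (this.const_mul 64).const_mul (8 + |c|)
  have h2 := h1.comp hlog
  refine squeeze_zero_norm' ?_ h2
  filter_upwards [eventually_ge_atTop 4] with n hn
  have hT : 1 ≤ Nat.log 4 n := Nat.log_pos (by norm_num) hn
  have hTr : (1 : ℝ) ≤ Nat.log 4 n := by exact_mod_cast hT
  have hW := W_lower n hn
  have hWp : (0 : ℝ) < (4 : ℝ) ^ Nat.log 4 n / (4 * (2 * (Nat.log 4 n : ℝ) + 2) ^ 2) := by positivity
  have hW0 : 0 < W Q 2 1 0 n := lt_of_lt_of_le hWp hW
  rw [Real.norm_eq_abs, abs_div, abs_of_pos hW0]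
  have hev : ((ev n : ℕ) : ℝ) ≤ 8 * 2 ^ Nat.log 4 n := by exact_mod_cast ev_le n
  have h2p : (1 : ℝ) ≤ 2 ^ Nat.log 4 n := one_le_pow₀ (by norm_num)
  have hnum : |(ev n : ℝ) + c| ≤ (8 + |c|) * 2 ^ Nat.log 4 n := by
    calc |(ev n : ℝ) + c| ≤ |(ev n : ℝ)| + |c| := abs_add_le _ _
      _ ≤ 8 * 2 ^ Nat.log 4 n + |c| * 2 ^ Nat.log 4 n := by
          rw [abs_of_nonneg (by positivity : (0 : ℝ) ≤ (ev n : ℝ))]
          have := abs_nonneg c
          nlinarith
      _ = _ := by ring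
  calc |(ev n : ℝ) + c| / W Q 2 1 0 n ≤ ((8 + |c|) * 2 ^ Nat.log 4 n) /
        ((4 : ℝ) ^ Nat.log 4 n / (4 * (2 * (Nat.log 4 n : ℝ) + 2) ^ 2)) := by
          apply div_le_div₀ (by positivity) hnum hWp hW
    _ = (8 + |c|) * (4 * (2 * (Nat.log 4 n : ℝ) + 2) ^ 2 / 2 ^ Nat.log 4 n) := by
          rw [show (4 : ℝ) ^ Nat.log 4 n = 2 ^ Nat.log 4 n * 2 ^ Nat.log 4 n by
            rw [← mul_pow]; norm_num]
          field_simp
    _ ≤ (8 + |c|) * (64 * ((Nat.log 4 n : ℝ) ^ 2 / 2 ^ Nat.log 4 n)) := by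
          apply mul_le_mul_of_nonneg_left _ (by positivity)
          rw [← mul_div_assoc]
          apply div_le_div_of_nonneg_right _ (by positivity)
          nlinarith

end Pool.Agent.X191.NS
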